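import Pool.Agent.U552.CN.Main

/-!
Many squarefree values of `u (4 M² u - 1) (4 M² u + 1)` in short intervals, with prescribed fractional parts of
arbitrary functions whose Weyl sums along the family are small. Variant of `Pool.Agent.U552.CN.count` and
`Pool.Agent.U552.CN.main` (helper552), whose proofs are followed.
-/

set_option autoImplicit false

namespace Pool.Agent.U828.CN

open Finset Polynomial
open Pool.Agent.U552.CN
open Pool.Agent.Helper602.MK (ee)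

open Classical in
/-- **The main count**, for arbitrary functions with small Weyl sums along the family. -/
theorem count {m : ℕ} (g : Fin m → ℕ → ℝ) (M n₀ : ℕ) (hM : 1 ≤ M) (hn : Squarefree n₀)
    (hg : ∀ h : Fin m → ℤ, h ≠ 0 → ∀ W : ℕ, 0 < W → ∀ ε L₁ L₂ : ℝ, 0 < ε → 0 < L₁ → 0 < L₂ →
      ∀ᶠ U : ℕ in Filter.atTop, ∀ K : ℕ, L₁ * √(U : ℝ) ≤ K → (K : ℝ) ≤ L₂ * √(U : ℝ) →
        ‖∑ t ∈ range K, ee (∑ i, h i * g i (nn M (U + W * t)))‖ ≤ ε * K)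
    (O : Set (Fin m → UnitAddCircle)) (hO : IsOpen O) (hne : O.Nonempty) :
    ∃ W u₁ : ℕ, 0 < W ∧ 1 ≤ u₁ ∧ (∀ u, u ≡ u₁ [MOD W] → u + n₀ ≡ 0 [MOD 8 * M]) ∧
      ∃ c : ℝ, 0 < c ∧ ∃ L : ℝ, 0 < L ∧ ∃ U₀ : ℕ, ∀ U : ℕ, U₀ ≤ U → 1 ≤ U → U ≡ u₁ [MOD W] → ∀ K : ℕ,
        L * √U + L ≤ K → (K : ℝ) ≤ L * √U + L + 1 →
        c * K ≤ (((range K).filter fun t => Squarefree (nn M (U + W * t)) ∧
          pt (fun i => g i (nn M (U + W * t))) ∈ O).card : ℝ) := by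
  obtain ⟨c₀, hc₀, 𝒦, δ, hδ, hvis⟩ := visits O hO hne
  obtain ⟨k, hk8, hk12⟩ : ∃ k : ℕ, 8 * M < k ∧ 12 / c₀ ≤ k := by
    refine ⟨8 * M + 1 + ⌈12 / c₀⌉₊, by omega, ?_⟩
    have := Nat.le_ceil (12 / c₀)
    push_cast
    have h2 : (0 : ℝ) ≤ M := Nat.cast_nonneg M
    linarith
  obtain ⟨W, u₁, hW, hu₁, hlarge, hcl⟩ := classes M n₀ k hM hn
  have hkr : (0 : ℝ) < k := by
    have : 0 < k := by omega
    exact_mod_cast this
  have hMr : (1 : ℝ) ≤ M := by exact_mod_cast hM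
  have hWr : (1 : ℝ) ≤ W := by exact_mod_cast hW
  obtain ⟨L, hL⟩ : ∃ L : ℝ, L = 1 + 432 * (M : ℝ) ^ 2 * W / c₀ ^ 2 + 432 * (M : ℝ) ^ 2 * W / c₀ := ⟨_, rfl⟩
  have hL0 : 0 < L := by rw [hL]; positivity
  -- Weyl sums
  have hweyl : ∀ᶠ U : ℕ in Filter.atTop, ∀ h ∈ 𝒦, h ≠ 0 → ∀ K : ℕ, L * √(U : ℝ) ≤ K →
      (K : ℝ) ≤ (2 * L + 1) * √(U : ℝ) → ‖∑ t ∈ range K, ee (∑ i, h i * g i (nn M (U + W * t)))‖ ≤ δ * K := by
    rw [Filter.eventually_all_finset]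
    intro h _
    by_cases h0 : h = 0
    · exact Filter.Eventually.of_forall fun U h1 => absurd h0 h1
    · filter_upwards [hg h h0 W hW δ L (2 * L + 1) hδ hL0 (by linarith)] with U hU _
      exact hU
  obtain ⟨U₀, hU₀⟩ := Filter.eventually_atTop.1 hweyl
  refine ⟨W, u₁, hW, hu₁, fun u hu => (hcl u hu).1, c₀ / 4, by positivity, L, hL0, U₀,
    fun U hUU₀ hU hUu K hK hK' => ?_⟩
  have hUr : (1 : ℝ) ≤ U := by exact_mod_cast hU
  have hs0 : 0 ≤ √(U : ℝ) := Real.sqrt_nonneg _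
  have hss : √(U : ℝ) ^ 2 = U := Real.sq_sqrt (by linarith)
  have hs1' : 1 ≤ √(U : ℝ) := Real.one_le_sqrt.2 hUr
  have hL1 : 1 ≤ L := by
    rw [hL]
    have h1 : 0 ≤ 432 * (M : ℝ) ^ 2 * W / c₀ ^ 2 := by positivity
    have h2 : 0 ≤ 432 * (M : ℝ) ^ 2 * W / c₀ := by positivity
    linarith
  have hKL : L ≤ K := by nlinarith
  -- visits
  set x : ℕ → Fin m → ℝ := fun t i => g i (nn M (U + W * t)) with hx
  have hv := hvis x K (fun h hh h0 => hU₀ U hUU₀ h hh h0 K (by linarith) (by nlinarith))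
  -- the sieve
  have hs1 := sieve U W K k hU (by omega) (fun p hp hkp h => hlarge p hp (by omega) hkp (Dvd.dvd.mul_left h _))
  have h4U : 1 ≤ 4 * M ^ 2 * U - 1 := by
    have : 4 * 1 ≤ 4 * M ^ 2 * U := by
      rw [mul_assoc]
      exact Nat.mul_le_mul_left 4 (Nat.mul_pos (by positivity) hU)
    omega
  have hs2 := sieve (4 * M ^ 2 * U - 1) (4 * M ^ 2 * W) K k h4U (by omega)
    (fun p hp hkp h => hlarge p hp (by omega) hkp h)
  have hs3 := sieve (4 * M ^ 2 * U + 1) (4 * M ^ 2 * W) K k (by omega) (by omega)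
    (fun p hp hkp h => hlarge p hp (by omega) hkp h)
  set B1 := (range K).filter fun t => ∃ p : ℕ, p.Prime ∧ k < p ∧ p ^ 2 ∣ U + W * t with hB1
  set B2 := (range K).filter fun t => ∃ p : ℕ, p.Prime ∧ k < p ∧ p ^ 2 ∣ 4 * M ^ 2 * U - 1 + 4 * M ^ 2 * W * t with hB2
  set B3 := (range K).filter fun t => ∃ p : ℕ, p.Prime ∧ k < p ∧ p ^ 2 ∣ 4 * M ^ 2 * U + 1 + 4 * M ^ 2 * W * t with hB3
  set G := (range K).filter fun t => Squarefree (nn M (U + W * t)) ∧ pt (x t) ∈ O with hG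
  have hcov : ((range K).filter fun t => pt (x t) ∈ O) ⊆ G ∪ B1 ∪ B2 ∪ B3 := by
    intro t ht
    rw [mem_filter] at ht
    simp only [mem_union]
    by_contra hcon
    push Not at hcon
    obtain ⟨⟨⟨hg, hb1⟩, hb2⟩, hb3⟩ := hcon
    refine hg (mem_filter.2 ⟨ht.1, ?_, ht.2⟩)
    have hu : U + W * t ≡ u₁ [MOD W] :=
      ((Nat.modEq_zero_iff_dvd.2 (dvd_mul_right W t)).add_left U).trans (by simpa using hUu)
    refine sq_free_nn hM (by omega) fun p hp => ?_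
    have e2 : 4 * M ^ 2 * (U + W * t) - 1 = 4 * M ^ 2 * U - 1 + 4 * M ^ 2 * W * t := by
      have : 4 * M ^ 2 * (U + W * t) = 4 * M ^ 2 * U + 4 * M ^ 2 * W * t := by ring
      omega
    have e3 : 4 * M ^ 2 * (U + W * t) + 1 = 4 * M ^ 2 * U + 1 + 4 * M ^ 2 * W * t := by ring
    rcases le_or_gt p k with hpk | hpk
    · rcases (hcl _ hu).2 p hp hpk with h | h
      · exact ⟨h.1, fun h' => h.2.1 ((dvd_pow_self p (by norm_num)).trans h'),
          fun h' => h.2.2 ((dvd_pow_self p (by norm_num)).trans h')⟩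
      · exfalso
        have : 0 < 4 * M ^ 2 * (U + W * t) := by
          have : 0 < U + W * t := by omega
          positivity
        omega
    · refine ⟨fun h => hb1 (mem_filter.2 ⟨ht.1, p, hp, hpk, h⟩), fun h => hb2 (mem_filter.2 ⟨ht.1, p, hp, hpk, ?_⟩),
        fun h => hb3 (mem_filter.2 ⟨ht.1, p, hp, hpk, ?_⟩)⟩
      · rw [← e2]; exact h
      · rw [← e3]; exact h
  have hcard : (((range K).filter fun t => pt (x t) ∈ O).card : ℝ) ≤ G.card + B1.card + B2.card + B3.card := by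
    have h1 := (card_le_card hcov).trans ((card_union_le _ _).trans (add_le_add_left
      ((card_union_le _ _).trans (add_le_add_left (card_union_le G B1) _)) _))
    exact_mod_cast h1
  -- the square roots
  have hsq : ∀ a : ℕ, a ≤ 4 * M ^ 2 * (U + W * K) + 1 → (Nat.sqrt a : ℝ) ≤ c₀ * K / 6 := by
    intro a ha
    have h1 : ((Nat.sqrt a : ℕ) : ℝ) ^ 2 ≤ a := by exact_mod_cast Nat.sqrt_le' a
    have h2 : (a : ℝ) ≤ 4 * (M : ℝ) ^ 2 * (U + W * K) + 1 := by exact_mod_cast ha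
    have hKr : (1 : ℝ) ≤ K := by linarith
    have h3 : 432 * (M : ℝ) ^ 2 * W ≤ L * c₀ ^ 2 := by
      have h4 : 432 * (M : ℝ) ^ 2 * W / c₀ ^ 2 ≤ L := by
        have h2 : 0 ≤ 432 * (M : ℝ) ^ 2 * W / c₀ := by positivity
        linarith
      rwa [div_le_iff₀ (by positivity)] at h4
    -- three lower bounds for `c₀² K²`
    have hK2a : L ^ 2 * U ≤ (K : ℝ) ^ 2 := by
      have h5 : L * √(U : ℝ) ≤ K := by linarith
      have h6 : (L * √(U : ℝ)) ^ 2 ≤ (K : ℝ) ^ 2 := pow_le_pow_left₀ (by positivity) h5 2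
      rw [mul_pow, hss] at h6
      exact h6
    have hK2b : L * K ≤ (K : ℝ) ^ 2 := by
      rw [sq]
      exact mul_le_mul_of_nonneg_right hKL (by linarith)
    have hLL : L ≤ L ^ 2 := le_self_pow₀ hL1 (by norm_num)
    have hMW : (M : ℝ) ^ 2 ≤ (M : ℝ) ^ 2 * W := le_mul_of_one_le_right (sq_nonneg _) hWr
    have hM1 : (1 : ℝ) ≤ (M : ℝ) ^ 2 := one_le_pow₀ hMr
    have h7 : 432 * (M : ℝ) ^ 2 * U ≤ c₀ ^ 2 * (K : ℝ) ^ 2 := by
      have h8 : 432 * (M : ℝ) ^ 2 * U ≤ L * c₀ ^ 2 * U := by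
        have h8a : 432 * (M : ℝ) ^ 2 ≤ L * c₀ ^ 2 := by linarith
        exact mul_le_mul_of_nonneg_right h8a (by linarith)
      have h9 : L * c₀ ^ 2 * U ≤ c₀ ^ 2 * (L ^ 2 * U) := by
        have : L * (c₀ ^ 2 * U) ≤ L ^ 2 * (c₀ ^ 2 * U) := mul_le_mul_of_nonneg_right hLL (by positivity)
        linarith
      have h10 : c₀ ^ 2 * (L ^ 2 * U) ≤ c₀ ^ 2 * (K : ℝ) ^ 2 := mul_le_mul_of_nonneg_left hK2a (by positivity)
      linarith
    have h11 : 432 * (M : ℝ) ^ 2 * W * K ≤ c₀ ^ 2 * (K : ℝ) ^ 2 := by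
      have h12 : 432 * (M : ℝ) ^ 2 * W * K ≤ L * c₀ ^ 2 * K := mul_le_mul_of_nonneg_right h3 (by linarith)
      have h13 : c₀ ^ 2 * (L * K) ≤ c₀ ^ 2 * (K : ℝ) ^ 2 := mul_le_mul_of_nonneg_left hK2b (by positivity)
      linarith
    have h14 : (432 : ℝ) ≤ c₀ ^ 2 * (K : ℝ) ^ 2 := by
      have h0 : (1 : ℝ) ≤ (M : ℝ) ^ 2 * U := one_le_mul_of_one_le_of_one_le hM1 hUr
      have : (432 : ℝ) ≤ 432 * (M : ℝ) ^ 2 * U := by linarith
      linarith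
    have h15 : (6 * ((Nat.sqrt a : ℕ) : ℝ)) ^ 2 ≤ (c₀ * K) ^ 2 := by
      rw [mul_pow, mul_pow]
      have e9 : 4 * (M : ℝ) ^ 2 * (U + W * K) + 1 = 4 * ((M : ℝ) ^ 2 * U) + 4 * ((M : ℝ) ^ 2 * W * K) + 1 := by ring
      have e10 : 432 * (M : ℝ) ^ 2 * U = 432 * ((M : ℝ) ^ 2 * U) := by ring
      have e11 : 432 * (M : ℝ) ^ 2 * W * K = 432 * ((M : ℝ) ^ 2 * W * K) := by ring
      have h36 : 0 ≤ c₀ ^ 2 * (K : ℝ) ^ 2 := by positivity
      rw [e9] at h2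
      rw [e10] at h7
      rw [e11] at h11
      linarith
    have h16 := abs_le_of_sq_le_sq h15 (by positivity)
    have h17 := (abs_le.1 (abs_le_of_sq_le_sq h15 (by positivity))).2
    linarith
  have e1 : (Nat.sqrt (U + W * K) : ℝ) ≤ c₀ * K / 6 := by
    refine hsq _ ?_
    have : 1 * (U + W * K) ≤ 4 * M ^ 2 * (U + W * K) := Nat.mul_le_mul_right _ (by
      have : 1 ≤ M ^ 2 := Nat.one_le_pow _ _ hM
      omega)
    omega
  have e2 : (Nat.sqrt (4 * M ^ 2 * U - 1 + 4 * M ^ 2 * W * K) : ℝ) ≤ c₀ * K / 6 := by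
    refine hsq _ ?_
    have : 4 * M ^ 2 * (U + W * K) = 4 * M ^ 2 * U + 4 * M ^ 2 * W * K := by ring
    omega
  have e3 : (Nat.sqrt (4 * M ^ 2 * U + 1 + 4 * M ^ 2 * W * K) : ℝ) ≤ c₀ * K / 6 := by
    refine hsq _ ?_
    have : 4 * M ^ 2 * (U + W * K) = 4 * M ^ 2 * U + 4 * M ^ 2 * W * K := by ring
    omega
  have e4 : (K : ℝ) / k ≤ c₀ * K / 12 := by
    rw [div_le_iff₀ hkr]
    rw [div_le_iff₀ hc₀] at hk12
    have : (0 : ℝ) ≤ K := Nat.cast_nonneg K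
    nlinarith
  linarith


end Pool.Agent.U828.CN
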