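import Pool.Agent.U828.CN.Pow
import Pool.Agent.U828.KD.Ord

/-! Exponential sums with real powers of the cubic `A u ^ 3 - u`, uniformly in windows of length about `√U`
(helper828). -/

set_option autoImplicit false

namespace Pool.Agent.U828.CN

open Finset Polynomial Filter Topology
open Pool.Agent.U828.KD (dk dk_mul Test test block_sum)
open Pool.Agent.H469R2.NK (e)

lemma FF_pos {A u : ℝ} (hA : 1 < A) (hu : 1 ≤ u) : 0 < FF A u := by
  unfold FF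
  have h1 : u ≤ u ^ 3 := le_self_pow₀ hu (by norm_num)
  nlinarith

/-- two-sided bounds for the derivative of order `d` -/
lemma comb_bounds {m : ℕ} (A : ℝ) (hA : 1 < A) (θ b : Fin m → ℝ) (hθ : Function.Injective θ)
    (hθ1 : ∀ i, 1 / 3 < θ i) (hθ2 : ∀ i, ∀ k : ℕ, 3 * θ i ≠ k) (hb : b ≠ 0) :
    ∃ (s : ℝ) (d : ℕ), 2 ≤ d ∧ s < d ∧ (d : ℝ) < 2 * s ∧ ∃ σ : ℝ, (σ = 1 ∨ σ = -1) ∧ ∃ c₁ : ℝ, 0 < c₁ ∧
      ∃ u₀ : ℝ, 1 ≤ u₀ ∧ ∀ u : ℝ, u₀ ≤ u → c₁ * u ^ (s - d) ≤ σ * ∑ i, b i * GG A (θ i) d u ∧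
        σ * ∑ i, b i * GG A (θ i) d u ≤ 3 * c₁ * u ^ (s - d) := by
  classical
  obtain ⟨i₁, hi₁⟩ := Function.ne_iff.1 hb
  obtain ⟨i₀, hi₀, hmax⟩ := (univ.filter fun i => b i ≠ 0).exists_max_image θ ⟨i₁, mem_filter.2 ⟨mem_univ _, hi₁⟩⟩
  rw [mem_filter] at hi₀
  have hmax' : ∀ i, b i ≠ 0 → θ i ≤ θ i₀ := fun i hi => hmax i (mem_filter.2 ⟨mem_univ _, hi⟩)
  obtain ⟨s, hs⟩ : ∃ s, s = 3 * θ i₀ := ⟨_, rfl⟩
  have hs1 : 1 < s := by rw [hs]; linarith [hθ1 i₀]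
  obtain ⟨d, hd⟩ : ∃ d, d = ⌊s⌋₊ + 1 := ⟨_, rfl⟩
  have hfl : (⌊s⌋₊ : ℝ) ≤ s := Nat.floor_le (by linarith)
  have hdr : (d : ℝ) = ⌊s⌋₊ + 1 := by rw [hd]; push_cast; ring
  have hd2 : 2 ≤ d := by
    have : 1 ≤ ⌊s⌋₊ := Nat.le_floor (by exact_mod_cast hs1.le)
    omega
  have hsd : s < d := by rw [hdr]; exact Nat.lt_floor_add_one s
  have hds : (d : ℝ) < 2 * s := by rw [hdr]; linarith
  obtain ⟨κ, hκ⟩ : ∃ κ, κ = b i₀ * (A ^ (θ i₀ - d) * (A ^ d * ∏ j ∈ range d, (3 * θ i₀ - j))) := ⟨_, rfl⟩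
  have hκ0 : κ ≠ 0 := by
    rw [hκ]
    refine mul_ne_zero hi₀.2 (mul_ne_zero (Real.rpow_pos_of_pos (by linarith) _).ne'
      (mul_ne_zero (pow_pos (by linarith) _).ne' (prod_ne_zero_iff.2 fun j _ => sub_ne_zero.2 (hθ2 i₀ j))))
  have hlim := comb_lim A (by linarith) θ b hθ i₀ hmax' d
  rw [← hκ, ← hs] at hlim
  have hev := (Metric.tendsto_nhds.1 hlim) (|κ| / 2) (by positivity)
  obtain ⟨u₁, hu₁⟩ := eventually_atTop.1 hev
  have key : ∀ u : ℝ, max 1 u₁ ≤ u → ∀ σ : ℝ, σ * κ = |κ| → |σ| = 1 →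
      |κ| / 2 * u ^ (s - d) ≤ σ * ∑ i, b i * GG A (θ i) d u ∧
        σ * ∑ i, b i * GG A (θ i) d u ≤ 3 * (|κ| / 2) * u ^ (s - d) := by
    intro u hu σ hσ hσ1
    have h1 := hu₁ u ((le_max_right _ _).trans hu)
    have hu1 : 1 ≤ u := (le_max_left _ _).trans hu
    have hp : 0 < u ^ (s - d) := Real.rpow_pos_of_pos (by linarith) _
    rw [Real.dist_eq] at h1
    set R := (∑ i, b i * GG A (θ i) d u) / u ^ (s - d) with hR
    have h2 : ∑ i, b i * GG A (θ i) d u = R * u ^ (s - d) := by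
      rw [hR, div_mul_cancel₀ _ hp.ne']
    have h3 : abs (σ * R - abs κ) ≤ abs κ / 2 := by
      have e0 : σ * R - abs κ = σ * (R - κ) := by rw [mul_sub, hσ]
      rw [e0, abs_mul, hσ1, one_mul]
      exact h1.le
    rw [abs_le] at h3
    rw [h2, ← mul_assoc]
    constructor
    · exact mul_le_mul_of_nonneg_right (by linarith) hp.le
    · exact mul_le_mul_of_nonneg_right (by linarith) hp.le
  refine ⟨s, d, hd2, hsd, hds, ?_⟩
  rcases lt_or_gt_of_ne hκ0 with h | h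
  · exact ⟨-1, Or.inr rfl, |κ| / 2, by positivity, max 1 u₁, le_max_left _ _, fun u hu =>
      key u hu (-1) (by rw [abs_of_neg h]; ring) (by norm_num)⟩
  · exact ⟨1, Or.inl rfl, |κ| / 2, by positivity, max 1 u₁, le_max_left _ _, fun u hu =>
      key u hu 1 (by rw [abs_of_pos h]; ring) (by norm_num)⟩

/-- **The exponential sums.** -/
theorem expo {m : ℕ} (A : ℝ) (hA : 1 < A) (θ b : Fin m → ℝ) (hθ : Function.Injective θ)
    (hθ1 : ∀ i, 1 / 3 < θ i) (hθ2 : ∀ i, ∀ k : ℕ, 3 * θ i ≠ k) (hb : b ≠ 0) (W : ℕ) (hW : 0 < W)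
    (ε L₁ L₂ : ℝ) (hε : 0 < ε) (hL₁ : 0 < L₁) (hL₂ : 0 < L₂) :
    ∀ᶠ U : ℕ in atTop, ∀ K : ℕ, L₁ * √(U : ℝ) ≤ K → (K : ℝ) ≤ L₂ * √(U : ℝ) →
      ‖∑ t ∈ range K, e (∑ i, b i * FF A (U + W * t) ^ θ i)‖ ≤ ε * K := by
  obtain ⟨s, d, hd2, hsd, hds, σ, hσ, c₁, hc₁, u₀, hu₀, hbd⟩ := comb_bounds A hA θ b hθ hθ1 hθ2 hb
  have hη : 0 < min 1 ((d : ℝ) - s) := lt_min one_pos (by linarith)
  obtain ⟨η, hηd⟩ : ∃ η, η = min 1 ((d : ℝ) - s) := ⟨_, rfl⟩
  rw [← hηd] at hη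
  have hη1 : η ≤ 1 := by rw [hηd]; exact min_le_left _ _
  have hη2 : η ≤ d - s := by rw [hηd]; exact min_le_right _ _
  obtain ⟨c, C, hc0, hc1, hC, H⟩ := test d hd2 η hη hη1
  have hWr : (0 : ℝ) < W := by exact_mod_cast hW
  obtain ⟨T, hT⟩ : ∃ T : ℝ, T = 3 * 4 ^ ((d : ℝ) - s) := ⟨_, rfl⟩
  have hT1 : 1 ≤ T := by
    have : (1 : ℝ) ≤ 4 ^ ((d : ℝ) - s) := Real.one_le_rpow (by norm_num) (by linarith)
    rw [hT]
    linarith
  -- the three limits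
  obtain ⟨c₂, hc₂⟩ : ∃ c₂ : ℝ, c₂ = c₁ * (W : ℝ) ^ d * 2 ^ (s - d) * L₁ ^ d := ⟨_, rfl⟩
  have hc₂0 : 0 < c₂ := by rw [hc₂]; positivity
  obtain ⟨c₃, hc₃⟩ : ∃ c₃ : ℝ, c₃ = c₁ * (W : ℝ) ^ d * 2 ^ (s - d) * L₂ ^ η := ⟨_, rfl⟩
  have hcast := tendsto_natCast_atTop_atTop (R := ℝ)
  have hY : Tendsto (fun U : ℕ => c₂ * (U : ℝ) ^ (s - d / 2)) atTop atTop :=
    ((tendsto_rpow_atTop (by linarith : 0 < s - d / 2)).comp hcast).const_mul_atTop hc₂0
  have hYc : Tendsto (fun U : ℕ => C * T * (c₂ * (U : ℝ) ^ (s - d / 2)) ^ (-c)) atTop (𝓝 (C * T * 0)) :=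
    ((tendsto_rpow_neg_atTop hc0).comp hY).const_mul _
  rw [mul_zero] at hYc
  have hZ : Tendsto (fun U : ℕ => c₃ * (U : ℝ) ^ (-((d : ℝ) - s - η / 2))) atTop (𝓝 (c₃ * 0)) :=
    ((tendsto_rpow_neg_atTop (by linarith : 0 < (d : ℝ) - s - η / 2)).comp hcast).const_mul _
  rw [mul_zero] at hZ
  have hsq : Tendsto (fun U : ℕ => √(U : ℝ)) atTop atTop := Real.tendsto_sqrt_atTop.comp hcast
  filter_upwards [hY.eventually_ge_atTop 1, hYc.eventually_lt_const hε, hZ.eventually_lt_const one_pos,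
    hsq.eventually_ge_atTop (4 * W * (2 * L₂ + d + 1) + 1), hcast.eventually_ge_atTop (2 * u₀)] with U h1 h2 h3 h4 h5
    K hK1 hK2
  have hU0 : (0 : ℝ) < U := by linarith
  set v := √(U : ℝ) with hv
  have hvv : v ^ 2 = U := Real.sq_sqrt hU0.le
  have hd0 : (0 : ℝ) ≤ d := Nat.cast_nonneg d
  have hv1 : 1 ≤ v := by
    have : 0 ≤ 4 * (W : ℝ) * (2 * L₂ + d + 1) := by positivity
    linarith
  have hK0 : (0 : ℝ) < K := lt_of_lt_of_le (by positivity) hK1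
  have hKn : 1 ≤ K := by exact_mod_cast hK0
  have hroom : (W : ℝ) * (2 * K + d + 1) ≤ U / 2 := by
    have e1 : (W : ℝ) * (2 * K + d + 1) ≤ W * (2 * L₂ + d + 1) * v := by
      have : 2 * (K : ℝ) + d + 1 ≤ (2 * L₂ + d + 1) * v := by nlinarith
      calc (W : ℝ) * (2 * K + d + 1) ≤ W * ((2 * L₂ + d + 1) * v) := mul_le_mul_of_nonneg_left this hWr.le
        _ = _ := by ring
    have e2 : 2 * (W * (2 * L₂ + d + 1)) ≤ v := by
      have : 0 ≤ (W : ℝ) * (2 * L₂ + d + 1) := by positivity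
      nlinarith
    have e3 : 2 * (W * (2 * L₂ + d + 1)) * v ≤ v * v := mul_le_mul_of_nonneg_right e2 (by linarith)
    nlinarith
  have hWU : (W : ℝ) ≤ U / 2 := by
    have : (W : ℝ) * 1 ≤ W * (2 * K + d + 1) := mul_le_mul_of_nonneg_left (by linarith) hWr.le
    linarith
  obtain ⟨lam, hlam⟩ : ∃ lam : ℝ, lam = c₁ * (W : ℝ) ^ d * (2 * U) ^ (s - d) := ⟨_, rfl⟩
  have hlam0 : 0 < lam := by rw [hlam]; positivity
  have hlam2 : lam = c₁ * (W : ℝ) ^ d * 2 ^ (s - d) * (U : ℝ) ^ (s - d) := by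
    rw [hlam, Real.mul_rpow (by norm_num) hU0.le]
    ring
  -- the shifted sequence
  set Gc : ℕ → ℝ → ℝ := fun k x => (W : ℝ) ^ k * ∑ i, b i * GG A (θ i) k (U + W * (x - (K + 1))) with hGc
  have hder : ∀ k : ℕ, ∀ x : ℝ, (K : ℝ) ≤ x → HasDerivAt (Gc k) (Gc (k + 1) x) x := by
    intro k x hx
    have hpos : 1 ≤ (U : ℝ) + W * (x - (K + 1)) := by
      have : (W : ℝ) * (-1) ≤ W * (x - (K + 1)) := mul_le_mul_of_nonneg_left (by linarith) hWr.le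
      linarith
    have hin : HasDerivAt (fun x : ℝ => (U : ℝ) + W * (x - (K + 1))) (W : ℝ) x := by
      have := (((hasDerivAt_id x).sub_const ((K : ℝ) + 1)).const_mul (W : ℝ)).const_add (U : ℝ)
      refine HasDerivAt.congr_deriv this ?_
      ring
    have h1 : ∀ i ∈ (univ : Finset (Fin m)), HasDerivAt (fun x => b i * GG A (θ i) k ((U : ℝ) + W * (x - (K + 1))))
        (b i * (GG A (θ i) (k + 1) ((U : ℝ) + W * (x - (K + 1))) * W)) x := by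
      intro i _
      have h0 := (GG_deriv A (θ i) k ((U : ℝ) + W * (x - (K + 1))) (FF_pos hA hpos)).comp x hin
      exact h0.const_mul (b i)
    have h2 := (HasDerivAt.fun_sum h1).const_mul ((W : ℝ) ^ k)
    refine HasDerivAt.congr_deriv h2 ?_
    rw [hGc]
    simp only
    rw [pow_succ, mul_assoc, mul_sum (a := (W : ℝ))]
    congr 1
    refine sum_congr rfl fun i _ => ?_
    ring
  set F : ℕ → ℝ := fun n => Gc 0 (n : ℝ) with hF
  have hdiff : ∀ n : ℕ, K ≤ n → n ≤ 3 * K → lam ≤ σ * dk d F n ∧ σ * dk d F n ≤ T * lam := by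
    intro n hn1 hn2
    have hn1r : (K : ℝ) ≤ n := by exact_mod_cast hn1
    have hn2r : (n : ℝ) ≤ 3 * K := by exact_mod_cast hn2
    have h6 := diff_bounds d (fun k x => σ * Gc k x) n
      (fun k _ x hx => (hder k x (hn1r.trans hx)).const_mul σ) lam (T * lam) (fun x hx1 hx2 => ?_)
    · rw [← dk_mul]
      exact h6
    · set u : ℝ := (U : ℝ) + W * (x - (K + 1)) with hu
      have hul : (U : ℝ) / 2 ≤ u := by
        have : (W : ℝ) * (-1) ≤ W * (x - (K + 1)) := mul_le_mul_of_nonneg_left (by linarith) hWr.le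
        rw [hu]
        linarith
      have huu : u ≤ 2 * U := by
        have : W * (x - (K + 1)) ≤ (W : ℝ) * (2 * K + d + 1) := mul_le_mul_of_nonneg_left (by linarith) hWr.le
        rw [hu]
        linarith
      have hu0 : 0 < u := by linarith
      have h7 := hbd u (by linarith)
      have hsd' : s - (d : ℝ) ≤ 0 := by linarith
      have h8 : (2 * (U : ℝ)) ^ (s - d) ≤ u ^ (s - d) := Real.rpow_le_rpow_of_nonpos hu0 huu hsd'
      have h9 : u ^ (s - d) ≤ 4 ^ ((d : ℝ) - s) * (2 * (U : ℝ)) ^ (s - d) := by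
        have h10 : u ^ (s - d) ≤ ((U : ℝ) / 2) ^ (s - d) := Real.rpow_le_rpow_of_nonpos (by linarith) hul hsd'
        have h11 : ((U : ℝ) / 2) ^ (s - d) = 4 ^ ((d : ℝ) - s) * (2 * (U : ℝ)) ^ (s - d) := by
          have e1 : (U : ℝ) / 2 = 4⁻¹ * (2 * U) := by ring
          rw [e1, Real.mul_rpow (by norm_num) (by positivity), Real.inv_rpow (by norm_num), ← Real.rpow_neg (by norm_num)]
          congr 2
          ring
        rw [← h11]
        exact h10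
      have hWd : (0 : ℝ) < (W : ℝ) ^ d := by positivity
      have e2 : σ * Gc d x = (W : ℝ) ^ d * (σ * ∑ i, b i * GG A (θ i) d u) := by
        rw [hGc]
        simp only
        rw [← hu]
        ring
      simp only [e2]
      constructor
      · calc lam = (W : ℝ) ^ d * (c₁ * (2 * (U : ℝ)) ^ (s - d)) := by rw [hlam]; ring
          _ ≤ (W : ℝ) ^ d * (c₁ * u ^ (s - d)) :=
            mul_le_mul_of_nonneg_left (mul_le_mul_of_nonneg_left h8 hc₁.le) hWd.le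
          _ ≤ _ := mul_le_mul_of_nonneg_left h7.1 hWd.le
      · calc (W : ℝ) ^ d * (σ * ∑ i, b i * GG A (θ i) d u) ≤ (W : ℝ) ^ d * (3 * c₁ * u ^ (s - d)) :=
            mul_le_mul_of_nonneg_left h7.2 hWd.le
          _ ≤ (W : ℝ) ^ d * (3 * c₁ * (4 ^ ((d : ℝ) - s) * (2 * (U : ℝ)) ^ (s - d))) :=
            mul_le_mul_of_nonneg_left (mul_le_mul_of_nonneg_left h9 (by positivity)) hWd.le
          _ = T * lam := by rw [hT, hlam]; ring
  -- the two conditions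
  have hlow : c₂ * (U : ℝ) ^ (s - d / 2) ≤ lam * (K : ℝ) ^ d := by
    have e1 : (L₁ * v) ^ d ≤ (K : ℝ) ^ d := pow_le_pow_left₀ (by positivity) hK1 d
    have e2 : v ^ d = (U : ℝ) ^ ((d : ℝ) / 2) := by
      rw [hv, Real.sqrt_eq_rpow, ← Real.rpow_natCast, ← Real.rpow_mul hU0.le]
      congr 1
      ring
    have e3 : (U : ℝ) ^ (s - d / 2) = (U : ℝ) ^ (s - d) * (U : ℝ) ^ ((d : ℝ) / 2) := by
      rw [← Real.rpow_add hU0]
      congr 1
      ring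
    calc c₂ * (U : ℝ) ^ (s - d / 2) = lam * (L₁ * v) ^ d := by
          rw [hlam2, mul_pow, e2, e3, hc₂]
          ring
      _ ≤ _ := mul_le_mul_of_nonneg_left e1 hlam0.le
  have hup : lam ≤ (K : ℝ) ^ (-η) := by
    have e1 : (L₂ * v) ^ (-η) ≤ (K : ℝ) ^ (-η) := Real.rpow_le_rpow_of_nonpos hK0 hK2 (by linarith)
    refine le_trans ?_ e1
    have e2 : v ^ η = (U : ℝ) ^ (η / 2) := by
      rw [hv, Real.sqrt_eq_rpow, ← Real.rpow_mul hU0.le]
      congr 1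
      ring
    have hp : 0 < (L₂ * v) ^ η := Real.rpow_pos_of_pos (by positivity) _
    rw [Real.rpow_neg (by positivity), ← one_div, le_div_iff₀ hp, Real.mul_rpow hL₂.le (by linarith), e2, hlam2]
    refine le_trans (le_of_eq ?_) h3.le
    have e3 : (U : ℝ) ^ (-((d : ℝ) - s - η / 2)) = (U : ℝ) ^ (s - d) * (U : ℝ) ^ (η / 2) := by
      rw [← Real.rpow_add hU0]
      congr 1
      ring
    rw [e3, hc₃]
    ring
  have hsum := block_sum d hd2 η c C H K hKn F σ lam T hσ hT1 (h1.trans hlow) hup hdiff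
  have e4 : ∑ n ∈ Ioc K (2 * K), e (F n) = ∑ t ∈ range K, e (∑ i, b i * FF A (U + W * t) ^ θ i) := by
    have h3 : Ioc K (2 * K) = Ico (K + 1) (2 * K + 1) := by
      ext n
      simp only [mem_Ioc, mem_Ico]
      omega
    rw [h3, sum_Ico_eq_sum_range]
    have h4 : 2 * K + 1 - (K + 1) = K := by omega
    rw [h4]
    refine sum_congr rfl fun t _ => ?_
    congr 1
    rw [hF, hGc]
    simp only [pow_zero, one_mul]
    refine sum_congr rfl fun i _ => ?_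
    have e5 : (U : ℝ) + W * (((K + 1 + t : ℕ) : ℝ) - (K + 1)) = U + W * t := by
      push_cast
      ring
    rw [e5]
    unfold GG
    simp [QQ]
  rw [e4] at hsum
  refine hsum.trans ?_
  have hYpos : 0 < c₂ * (U : ℝ) ^ (s - d / 2) := by linarith
  have e6 : (lam * (K : ℝ) ^ d) ^ (-c) ≤ (c₂ * (U : ℝ) ^ (s - d / 2)) ^ (-c) :=
    Real.rpow_le_rpow_of_nonpos hYpos hlow (by linarith)
  have hCT : 0 ≤ C * T := by positivity
  calc C * T * K * (lam * (K : ℝ) ^ d) ^ (-c) = (C * T * (lam * (K : ℝ) ^ d) ^ (-c)) * K := by ring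
    _ ≤ (C * T * (c₂ * (U : ℝ) ^ (s - d / 2)) ^ (-c)) * K :=
      mul_le_mul_of_nonneg_right (mul_le_mul_of_nonneg_left e6 hCT) hK0.le
    _ ≤ ε * K := mul_le_mul_of_nonneg_right h2.le hK0.le

end Pool.Agent.U828.CN
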