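import Pool.Agent.U828.CN.Cnt
import Pool.Agent.U552.CN.Fin

/-!
Squarefree congruent numbers in short intervals, in residue classes, with prescribed fractional parts. Variant of
`Pool.Agent.U552.CN.main` (helper552), whose proof is followed.
-/

set_option autoImplicit false

namespace Pool.Agent.U828.CN

open Finset Polynomial
open Pool.Agent.U552.CN (nn pt nn_real nn_lt nn_mod)
open Pool.Agent.Helper602.MK (ee)

/-- **Short intervals.** -/
theorem main {m : ℕ} (g : Fin m → ℕ → ℝ) (M n₀ : ℕ) (hM : 1 ≤ M) (hn : Squarefree n₀)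
    (hg : ∀ h : Fin m → ℤ, h ≠ 0 → ∀ W : ℕ, 0 < W → ∀ ε L₁ L₂ : ℝ, 0 < ε → 0 < L₁ → 0 < L₂ →
      ∀ᶠ U : ℕ in Filter.atTop, ∀ K : ℕ, L₁ * √(U : ℝ) ≤ K → (K : ℝ) ≤ L₂ * √(U : ℝ) →
        ‖∑ t ∈ range K, ee (∑ i, h i * g i (nn M (U + W * t)))‖ ≤ ε * K)
    (O : Set (Fin m → UnitAddCircle)) (hO : IsOpen O) (hne : O.Nonempty) :
    ∃ c D X₀ : ℝ, 0 < c ∧ ∀ X : ℝ, X₀ ≤ X → ∃ A : Finset ℕ, c * X ^ (1 / 6 : ℝ) ≤ A.card ∧
      ∀ n ∈ A, X ≤ n ∧ (n : ℝ) ≤ X + D * X ^ (5 / 6 : ℝ) ∧ Squarefree n ∧ n ≡ n₀ [MOD 8 * M] ∧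
        (∃ u, 1 ≤ u ∧ n = nn M u) ∧ pt (fun i => g i n) ∈ O := by
  classical
  obtain ⟨W, u₁, hW, hu₁, hres, c, hc, L, hL, U₀, hmain⟩ := count g M n₀ hM hn hg O hO hne
  have hMr : (1 : ℝ) ≤ M := by exact_mod_cast hM
  have hM4 : (1 : ℝ) ≤ (M : ℝ) ^ 4 := one_le_pow₀ hMr
  have hWr : (1 : ℝ) ≤ W := by exact_mod_cast hW
  set L' : ℝ := L * (1 + W) + L + 1 with hL'
  set A' : ℝ := 1 + W + W * L' with hA'
  set B' : ℝ := W + W * L' with hB'
  have hL'0 : 0 < L' := by positivity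
  have hA'0 : 0 < A' := by positivity
  have hB'0 : 0 < B' := by positivity
  refine ⟨c * L / (16 * (M : ℝ) ^ 4), 48 * (M : ℝ) ^ 4 * A' ^ 2 * B' + 1, nn M (u₁ + U₀) + 1, by positivity, fun X hX => ?_⟩
  have hX1 : 1 ≤ X := by
    have : (0 : ℝ) ≤ nn M (u₁ + U₀) := Nat.cast_nonneg _
    linarith
  have hX0 : 0 ≤ X := by linarith
  set Y : ℝ := X ^ (1 / 6 : ℝ) with hY
  have hY1 : 1 ≤ Y := Real.one_le_rpow hX1 (by norm_num)
  have hY0 : 0 < Y := by linarith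
  have hY6 : Y ^ 6 = X := by
    rw [hY, ← Real.rpow_natCast, ← Real.rpow_mul hX0]
    norm_num
  have hY5 : X ^ (5 / 6 : ℝ) = Y ^ 5 := by
    rw [hY, ← Real.rpow_natCast, ← Real.rpow_mul hX0]
    norm_num
  rw [hY5]
  -- the least member of the class with `X ≤ nn`
  have hex : ∃ s : ℕ, X ≤ nn M (u₁ + W * s) := by
    refine ⟨⌈X⌉₊, ?_⟩
    have h1 : X ≤ ⌈X⌉₊ := Nat.le_ceil X
    rw [nn_real hM (by omega)]
    have h2 : ((⌈X⌉₊ : ℕ) : ℝ) ≤ ((u₁ + W * ⌈X⌉₊ : ℕ) : ℝ) := by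
      have : ⌈X⌉₊ ≤ u₁ + W * ⌈X⌉₊ := by nlinarith
      exact_mod_cast this
    set v : ℝ := ((u₁ + W * ⌈X⌉₊ : ℕ) : ℝ) with hv
    have hv1 : 1 ≤ v := by linarith
    have hv3 : v ≤ v ^ 3 := le_self_pow₀ hv1 (by norm_num)
    have hv4 : v ^ 3 ≤ (M : ℝ) ^ 4 * v ^ 3 := le_mul_of_one_le_left (by positivity) hM4
    linarith
  obtain ⟨s, hs, hmin⟩ : ∃ s : ℕ, X ≤ nn M (u₁ + W * s) ∧ ∀ s' < s, ¬ X ≤ nn M (u₁ + W * s') :=
    ⟨Nat.find hex, Nat.find_spec hex, fun s' hs' => Nat.find_min hex hs'⟩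
  have hs0 : s ≠ 0 := by
    rintro rfl
    rw [Nat.mul_zero, Nat.add_zero] at hs
    have h1 : nn M u₁ ≤ nn M (u₁ + U₀) := by
      rcases Nat.eq_zero_or_pos U₀ with h | h
      · rw [h, Nat.add_zero]
      · exact (nn_lt hM hu₁ (by omega)).le
    have h2 : ((nn M u₁ : ℕ) : ℝ) ≤ (nn M (u₁ + U₀) : ℕ) := by exact_mod_cast h1
    linarith
  obtain ⟨s', rfl⟩ := Nat.exists_eq_succ_of_ne_zero hs0
  have hlt := hmin s' (Nat.lt_succ_self s')
  push Not at hlt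
  obtain ⟨U', hU'⟩ : ∃ U' : ℕ, U' = u₁ + W * s' := ⟨_, rfl⟩
  have hU'1 : 1 ≤ U' := by omega
  have eU : u₁ + W * s'.succ = U' + W := by rw [hU', Nat.mul_succ]; omega
  rw [eU] at hs
  rw [← hU'] at hlt
  obtain ⟨U, hU⟩ : ∃ U : ℕ, U = U' + W := ⟨_, rfl⟩
  rw [← hU] at hs
  have hU1 : 1 ≤ U := by omega
  have hUu : U ≡ u₁ [MOD W] := by
    rw [hU, ← eU]
    exact ((Nat.modEq_zero_iff_dvd.2 (dvd_mul_right W s'.succ)).add_left u₁).trans (by rw [Nat.add_zero])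
  have hU'r : (1 : ℝ) ≤ U' := by exact_mod_cast hU'1
  have hUr : (U : ℝ) = U' + W := by rw [hU]; push_cast; ring
  have hlt' := hlt
  rw [nn_real hM hU'1] at hlt'
  have hs' := hs
  rw [nn_real hM hU1] at hs'
  -- (i)
  have hi : (U' : ℝ) ≤ Y ^ 2 := by
    have h1 : (U' : ℝ) ^ 3 ≤ (Y ^ 2) ^ 3 := by
      have h2 : (U' : ℝ) ≤ (U' : ℝ) ^ 3 := le_self_pow₀ hU'r (by norm_num)
      have h30 : 0 ≤ (U' : ℝ) ^ 3 := by positivity
      have h3 : (U' : ℝ) ^ 3 ≤ (M : ℝ) ^ 4 * (U' : ℝ) ^ 3 := le_mul_of_one_le_left h30 hM4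
      rw [← pow_mul, hY6]
      linarith
    exact le_of_pow_le_pow_left₀ (by norm_num) (by positivity) h1
  have hYY : Y ≤ Y ^ 2 := le_self_pow₀ hY1 (by norm_num)
  have h1Y : 1 ≤ Y ^ 2 := one_le_pow₀ hY1
  -- (ii)
  have hii : (U : ℝ) ≤ (1 + W) * Y ^ 2 := by
    rw [hUr]
    have := le_mul_of_one_le_right (by linarith : (0 : ℝ) ≤ W) h1Y
    linarith
  -- (iii)
  have hsU : √(U : ℝ) ^ 2 = U := Real.sq_sqrt (Nat.cast_nonneg _)
  have hsU0 : 0 ≤ √(U : ℝ) := Real.sqrt_nonneg _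
  have hiii : Y / (16 * (M : ℝ) ^ 4) ≤ √(U : ℝ) := by
    have h1 : (Y / (16 * (M : ℝ) ^ 4)) ^ 6 ≤ √(U : ℝ) ^ 6 := by
      have h2 : √(U : ℝ) ^ 6 = (U : ℝ) ^ 3 := by
        calc √(U : ℝ) ^ 6 = (√(U : ℝ) ^ 2) ^ 3 := by ring
          _ = (U : ℝ) ^ 3 := by rw [hsU]
      rw [h2, div_pow, hY6, div_le_iff₀ (by positivity)]
      have h3 : (16 * (M : ℝ) ^ 4) ≤ (16 * (M : ℝ) ^ 4) ^ 6 := le_self_pow₀ (by linarith) (by norm_num)
      have h4 : (0 : ℝ) ≤ (U : ℝ) ^ 3 := by positivity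
      have h5 : (0 : ℝ) ≤ U := Nat.cast_nonneg _
      have h6 : X ≤ 16 * (M : ℝ) ^ 4 * (U : ℝ) ^ 3 := by linarith
      have h7 := mul_le_mul_of_nonneg_right h3 h4
      linarith
    exact le_of_pow_le_pow_left₀ (by norm_num) hsU0 h1
  -- (iv)
  obtain ⟨K, hK⟩ : ∃ K : ℕ, K = ⌈L * √(U : ℝ) + L⌉₊ := ⟨_, rfl⟩
  have hK1 : L * √(U : ℝ) + L ≤ K := by rw [hK]; exact Nat.le_ceil _
  have hK2 : (K : ℝ) ≤ L * √(U : ℝ) + L + 1 := by
    rw [hK]
    exact (Nat.ceil_lt_add_one (by positivity)).le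
  have hsU2 : √(U : ℝ) ≤ (1 + W) * Y := by
    rw [Real.sqrt_le_left (by positivity)]
    refine hii.trans ?_
    have h1 : (1 + (W : ℝ)) ≤ (1 + (W : ℝ)) ^ 2 := le_self_pow₀ (by linarith) (by norm_num)
    rw [mul_pow]
    exact mul_le_mul_of_nonneg_right h1 (by positivity)
  have hK3 : (K : ℝ) ≤ L' * Y := by
    have h1 : L * √(U : ℝ) ≤ L * ((1 + W) * Y) := mul_le_mul_of_nonneg_left hsU2 hL.le
    rw [hL']
    have h2 : (L + 1) * 1 ≤ (L + 1) * Y := mul_le_mul_of_nonneg_left hY1 (by linarith)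
    linarith
  have hUU₀ : U₀ ≤ U := by
    by_contra hcon
    push Not at hcon
    have h1 : nn M U ≤ nn M (u₁ + U₀) := (nn_lt hM hU1 (by omega)).le
    have h2 : ((nn M U : ℕ) : ℝ) ≤ (nn M (u₁ + U₀) : ℕ) := by exact_mod_cast h1
    linarith
  have hcount := hmain U hUU₀ hU1 hUu K hK1 hK2
  refine ⟨((range K).filter fun t => Squarefree (nn M (U + W * t)) ∧
    pt (fun i => g i (nn M (U + W * t))) ∈ O).image fun t => nn M (U + W * t), ?_, ?_⟩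
  · rw [card_image_of_injective _ (by
      have hmono : StrictMono fun t => nn M (U + W * t) :=
        strictMono_nat_of_lt_succ fun t => nn_lt hM (by omega) (by
          have : W * t < W * (t + 1) := Nat.mul_lt_mul_of_pos_left (Nat.lt_succ_self t) hW
          omega)
      exact hmono.injective)]
    refine le_trans ?_ hcount
    have h1 : c * L / (16 * (M : ℝ) ^ 4) * Y = c * (L * (Y / (16 * (M : ℝ) ^ 4))) := by ring
    rw [h1]
    refine mul_le_mul_of_nonneg_left ?_ hc.le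
    have h2 : L * (Y / (16 * (M : ℝ) ^ 4)) ≤ L * √(U : ℝ) := mul_le_mul_of_nonneg_left hiii hL.le
    linarith
  · intro n hn'
    rw [mem_image] at hn'
    obtain ⟨t, ht, rfl⟩ := hn'
    rw [mem_filter, mem_range] at ht
    obtain ⟨htK, hsf, hpt⟩ := ht
    have hut : 1 ≤ U + W * t := by omega
    refine ⟨?_, ?_, hsf, ?_, ⟨_, hut, rfl⟩, hpt⟩
    · refine hs.trans ?_
      rcases Nat.eq_zero_or_pos t with h | h
      · rw [h, Nat.mul_zero, Nat.add_zero]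
      · have := nn_lt hM hU1 (show U < U + W * t by
          have : 0 < W * t := Nat.mul_pos hW h
          omega)
        exact_mod_cast this.le
    · rw [nn_real hM hut]
      have htr : (t : ℝ) ≤ K := by exact_mod_cast htK.le
      set V : ℝ := U + W * K with hV
      have huV : ((U + W * t : ℕ) : ℝ) ≤ V := by
        push_cast
        rw [hV]
        have := mul_le_mul_of_nonneg_left htr (by linarith : (0 : ℝ) ≤ W)
        linarith
      have hu0 : (1 : ℝ) ≤ ((U + W * t : ℕ) : ℝ) := by exact_mod_cast hut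
      have hVA : V ≤ A' * Y ^ 2 := by
        have h1 : (W : ℝ) * K ≤ W * (L' * Y) := mul_le_mul_of_nonneg_left hK3 (by linarith)
        have h2 : W * (L' * Y) ≤ W * L' * Y ^ 2 := by
          have h0 : 0 ≤ W * L' := by positivity
          have h00 := mul_le_mul_of_nonneg_left hYY h0
          linarith
        rw [hV, hA']
        linarith
      have hVB : V - U' ≤ B' * Y := by
        have h1 : (W : ℝ) * K ≤ W * (L' * Y) := mul_le_mul_of_nonneg_left hK3 (by linarith)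
        have h2 := le_mul_of_one_le_right (by linarith : (0 : ℝ) ≤ W) hY1
        rw [hV, hUr, hB']
        linarith
      have hU'V : (U' : ℝ) ≤ V := by
        rw [hV, hUr]
        have : (0 : ℝ) ≤ W * K := by positivity
        linarith
      have hV0 : 0 ≤ V := by linarith
      have h3 : V ^ 3 - (U' : ℝ) ^ 3 ≤ 3 * A' ^ 2 * B' * Y ^ 5 := by
        have e : V ^ 3 - (U' : ℝ) ^ 3 = (V - U') * (V ^ 2 + V * U' + (U' : ℝ) ^ 2) := by ring
        have h4 : V ^ 2 ≤ (A' * Y ^ 2) ^ 2 := pow_le_pow_left₀ hV0 hVA 2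
        have h5 : V ^ 2 + V * U' + (U' : ℝ) ^ 2 ≤ 3 * (A' * Y ^ 2) ^ 2 := by
          have h51 := mul_le_mul_of_nonneg_left hU'V hV0
          have h52 : (U' : ℝ) ^ 2 ≤ V ^ 2 := pow_le_pow_left₀ (by linarith) hU'V 2
          have h53 : V * V = V ^ 2 := by ring
          linarith
        rw [e]
        calc (V - U') * (V ^ 2 + V * U' + (U' : ℝ) ^ 2) ≤ (B' * Y) * (3 * (A' * Y ^ 2) ^ 2) :=
              mul_le_mul hVB h5 (by positivity) (by positivity)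
          _ = 3 * A' ^ 2 * B' * Y ^ 5 := by ring
      have h6 : ((U + W * t : ℕ) : ℝ) ^ 3 ≤ V ^ 3 := pow_le_pow_left₀ (by linarith) huV 3
      have h7 : Y ^ 2 ≤ Y ^ 5 := pow_le_pow_right₀ hY1 (by norm_num)
      have h8 : 16 * (M : ℝ) ^ 4 * ((U + W * t : ℕ) : ℝ) ^ 3 ≤ 16 * (M : ℝ) ^ 4 * ((U' : ℝ) ^ 3 + 3 * A' ^ 2 * B' * Y ^ 5) :=
        mul_le_mul_of_nonneg_left (by linarith) (by positivity)
      linarith
    · refine nn_mod M _ n₀ hM hut (hres _ ?_)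
      exact ((Nat.modEq_zero_iff_dvd.2 (dvd_mul_right W t)).add_left U).trans (by simpa using hUu)


end Pool.Agent.U828.CN
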