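import Mathlib
import Pool.Agent.U828.KD.Diff

/-! Differences of real powers of the cubic `A u ^ 3 - u` (helper828). -/

set_option autoImplicit false

namespace Pool.Agent.U828.CN

open Finset Polynomial Filter Topology
open Pool.Agent.U828.KD (dk)

lemma dk_first (d : ℕ) (f : ℕ → ℝ) (t : ℕ) : dk (d + 1) f t = dk d (fun n => f (n + 1) - f n) t := by
  unfold dk
  rw [Function.iterate_succ_apply]
  rfl

/-- differences lie between the bounds of the derivative -/
lemma diff_bounds (d : ℕ) : ∀ (G : ℕ → ℝ → ℝ) (t : ℕ),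
    (∀ k < d, ∀ s : ℝ, (t : ℝ) ≤ s → HasDerivAt (G k) (G (k + 1) s) s) →
    ∀ (lo hi : ℝ), (∀ s : ℝ, (t : ℝ) ≤ s → s ≤ t + d → lo ≤ G d s ∧ G d s ≤ hi) →
    lo ≤ dk d (fun n : ℕ => G 0 (n : ℝ)) t ∧ dk d (fun n : ℕ => G 0 (n : ℝ)) t ≤ hi := by
  induction d with
  | zero =>
    intro G t _ lo hi h
    exact h t le_rfl (by simp)
  | succ d ih =>
    intro G t hG lo hi h
    have h1 := ih (fun k s => G k (s + 1) - G k s) t (fun k hk s hs => by
      have e1 := (hG k (by omega) (s + 1) (by linarith)).comp_add_const s 1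
      exact e1.sub (hG k (by omega) s hs)) lo hi (fun s hs1 hs2 => by
      obtain ⟨ξ, hξ, hξ2⟩ := exists_hasDerivAt_eq_slope (G d) (G (d + 1)) (show s < s + 1 by linarith)
        (fun x hx => (hG d (by omega) x (by linarith [hx.1])).continuousAt.continuousWithinAt)
        (fun x hx => hG d (by omega) x (by linarith [hx.1]))
      have e2 : G d (s + 1) - G d s = G (d + 1) ξ := by
        rw [hξ2]
        have : s + 1 - s = 1 := by ring
        rw [this, div_one]
      simp only [e2]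
      exact h ξ (by linarith [hξ.1]) (by push_cast; linarith [hξ.2]))
    rw [dk_first]
    simpa only [Nat.cast_add, Nat.cast_one] using h1

/-- the cubic -/
noncomputable def FF (A u : ℝ) : ℝ := A * u ^ 3 - u

/-- numerators of the derivatives -/
noncomputable def QQ (A θ : ℝ) : ℕ → ℝ[X]
  | 0 => 1
  | k + 1 => C (θ - k) * ((C (3 * A) * X ^ 2 - 1) * QQ A θ k) + (C A * X ^ 3 - X) * derivative (QQ A θ k)

noncomputable def GG (A θ : ℝ) (k : ℕ) (u : ℝ) : ℝ := FF A u ^ (θ - k) * (QQ A θ k).eval u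

lemma GG_deriv (A θ : ℝ) (k : ℕ) (u : ℝ) (h : 0 < FF A u) : HasDerivAt (GG A θ k) (GG A θ (k + 1) u) u := by
  have h1 : HasDerivAt (FF A) (3 * A * u ^ 2 - 1) u := by
    have h0 := ((hasDerivAt_pow 3 u).const_mul A).sub (hasDerivAt_id u)
    refine HasDerivAt.congr_deriv (f := FF A) h0 ?_
    push_cast
    ring
  have h2 := h1.rpow_const (p := θ - k) (Or.inl h.ne')
  have h3 := (QQ A θ k).hasDerivAt u
  have h4 := h2.mul h3
  refine HasDerivAt.congr_deriv (f := GG A θ k) h4 ?_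
  show _ = FF A u ^ (θ - (k + 1 : ℕ)) * (QQ A θ (k + 1)).eval u
  simp only [QQ, eval_add, eval_mul, eval_C, eval_sub, eval_pow, eval_X, eval_one]
  have e1 : FF A u ^ (θ - k) = FF A u ^ (θ - (k + 1 : ℕ)) * FF A u := by
    rw [← Real.rpow_add_one h.ne']
    congr 1
    push_cast
    ring
  have e2 : FF A u ^ (θ - k - 1) = FF A u ^ (θ - (k + 1 : ℕ)) := by
    congr 1
    push_cast
    ring
  rw [e1, e2]
  have e3 : A * u ^ 3 - u = FF A u := rfl
  rw [e3]
  ring

lemma coeff_X_mul_deriv (Q : ℝ[X]) (n : ℕ) : (X * derivative Q).coeff n = n * Q.coeff n := by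
  cases n with
  | zero => simp
  | succ n =>
    rw [coeff_X_mul, coeff_derivative]
    push_cast
    ring

lemma QQ_coeff (A θ : ℝ) (k m : ℕ) : (QQ A θ (k + 1)).coeff (m + 2) =
    (3 * A * (θ - k) + A * m) * (QQ A θ k).coeff m - ((θ - k) + (m + 2)) * (QQ A θ k).coeff (m + 2) := by
  have e : QQ A θ (k + 1) = C (3 * A * (θ - k)) * (X ^ 2 * QQ A θ k) - C (θ - k) * QQ A θ k +
      C A * (X ^ 2 * (X * derivative (QQ A θ k))) - X * derivative (QQ A θ k) := by
    rw [QQ]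
    simp only [C_mul, C_sub]
    ring
  rw [e, coeff_sub, coeff_add, coeff_sub, coeff_C_mul, coeff_C_mul, coeff_C_mul, coeff_X_pow_mul, coeff_X_pow_mul,
    coeff_X_mul_deriv, coeff_X_mul_deriv]
  push_cast
  ring

lemma QQ_lead (A θ : ℝ) (k : ℕ) : (∀ m, 2 * k < m → (QQ A θ k).coeff m = 0) ∧
    (QQ A θ k).coeff (2 * k) = A ^ k * ∏ j ∈ range k, (3 * θ - j) := by
  induction k with
  | zero =>
    constructor
    · intro m hm
      rw [QQ, coeff_one, if_neg (by omega)]
    · rw [QQ]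
      simp
  | succ k ih =>
    constructor
    · intro m hm
      obtain ⟨m', rfl⟩ : ∃ m', m = m' + 2 := ⟨m - 2, by omega⟩
      rw [QQ_coeff, ih.1 m' (by omega), ih.1 (m' + 2) (by omega)]
      ring
    · have e : 2 * (k + 1) = 2 * k + 2 := by ring
      rw [e, QQ_coeff, ih.1 (2 * k + 2) (by omega), ih.2, prod_range_succ]
      push_cast
      ring

lemma poly_lim (Q : ℝ[X]) (n : ℕ) (hQ : ∀ m, n < m → Q.coeff m = 0) :
    Tendsto (fun u : ℝ => Q.eval u / u ^ n) atTop (𝓝 (Q.coeff n)) := by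
  have hd : Q.natDegree < n + 1 := Nat.lt_succ_of_le (natDegree_le_iff_coeff_eq_zero.2 hQ)
  have h1 : Tendsto (fun u : ℝ => ∑ j ∈ range (n + 1), Q.coeff j * (u⁻¹) ^ (n - j)) atTop
      (𝓝 (∑ j ∈ range (n + 1), Q.coeff j * (0 : ℝ) ^ (n - j))) :=
    tendsto_finsetSum _ fun j _ => (tendsto_inv_atTop_zero.pow _).const_mul _
  have h2 : ∑ j ∈ range (n + 1), Q.coeff j * (0 : ℝ) ^ (n - j) = Q.coeff n := by
    rw [sum_range_succ, Nat.sub_self, pow_zero, mul_one, sum_eq_zero, zero_add]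
    intro j hj
    rw [mem_range] at hj
    rw [zero_pow (by omega), mul_zero]
  rw [h2] at h1
  refine h1.congr' ?_
  filter_upwards [eventually_gt_atTop 0] with u hu
  rw [eval_eq_sum_range' hd, sum_div]
  refine sum_congr rfl fun j hj => ?_
  rw [mem_range] at hj
  have e : u ^ n = u ^ j * u ^ (n - j) := by
    rw [← pow_add]
    congr 1
    omega
  rw [e, inv_pow]
  field_simp

lemma FF_lim (A : ℝ) : Tendsto (fun u : ℝ => FF A u / u ^ 3) atTop (𝓝 A) := by
  have h1 : Tendsto (fun u : ℝ => A - (u⁻¹) ^ 2) atTop (𝓝 (A - 0 ^ 2)) :=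
    tendsto_const_nhds.sub (tendsto_inv_atTop_zero.pow 2)
  rw [zero_pow (by norm_num), sub_zero] at h1
  refine h1.congr' ?_
  filter_upwards [eventually_gt_atTop 0] with u hu
  unfold FF
  field_simp

lemma GG_lim (A θ : ℝ) (hA : 0 < A) (d : ℕ) : Tendsto (fun u : ℝ => GG A θ d u / u ^ (3 * θ - d)) atTop
    (𝓝 (A ^ (θ - d) * (A ^ d * ∏ j ∈ range d, (3 * θ - j)))) := by
  have h1 := (FF_lim A).rpow_const (p := θ - d) (Or.inl hA.ne')
  have h2 := poly_lim (QQ A θ d) (2 * d) (QQ_lead A θ d).1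
  rw [(QQ_lead A θ d).2] at h2
  refine (h1.mul h2).congr' ?_
  filter_upwards [eventually_gt_atTop 0, (FF_lim A).eventually_const_lt hA] with u hu hF
  have hF' : 0 < FF A u := by
    have := mul_pos hF (pow_pos hu 3)
    rwa [div_mul_cancel₀ _ (pow_pos hu 3).ne'] at this
  unfold GG
  rw [Real.div_rpow hF'.le (pow_pos hu 3).le]
  have e1 : (u ^ 3) ^ (θ - d) * u ^ (2 * d) = u ^ (3 * θ - d) := by
    rw [← Real.rpow_natCast u 3, ← Real.rpow_mul hu.le, ← Real.rpow_natCast u (2 * d), ← Real.rpow_add hu]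
    congr 1
    push_cast
    ring
  rw [← e1]
  have h3 : (u ^ 3) ^ (θ - d) ≠ 0 := (Real.rpow_pos_of_pos (pow_pos hu 3) _).ne'
  have h4 : u ^ (2 * d) ≠ 0 := (pow_pos hu _).ne'
  field_simp

/-- the derivative of a linear combination -/
lemma comb_lim {m : ℕ} (A : ℝ) (hA : 0 < A) (θ b : Fin m → ℝ) (hθ : Function.Injective θ) (i₀ : Fin m)
    (hmax : ∀ i, b i ≠ 0 → θ i ≤ θ i₀) (d : ℕ) :
    Tendsto (fun u : ℝ => (∑ i, b i * GG A (θ i) d u) / u ^ (3 * θ i₀ - d)) atTop
      (𝓝 (b i₀ * (A ^ (θ i₀ - d) * (A ^ d * ∏ j ∈ range d, (3 * θ i₀ - j))))) := by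
  have h1 : ∀ i, Tendsto (fun u : ℝ => b i * GG A (θ i) d u / u ^ (3 * θ i₀ - d)) atTop
      (𝓝 (if i = i₀ then b i₀ * (A ^ (θ i₀ - d) * (A ^ d * ∏ j ∈ range d, (3 * θ i₀ - j))) else 0)) := by
    intro i
    by_cases hi : i = i₀
    · rw [if_pos hi, hi]
      refine ((GG_lim A (θ i₀) hA d).const_mul (b i₀)).congr fun u => ?_
      rw [mul_div_assoc]
    · rw [if_neg hi]
      by_cases hb : b i = 0
      · rw [hb]
        simp
      · have hlt : θ i < θ i₀ := lt_of_le_of_ne (hmax i hb) fun h => hi (hθ h)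
        have h2 := ((GG_lim A (θ i) hA d).const_mul (b i)).mul
          (tendsto_rpow_neg_atTop (show 0 < 3 * θ i₀ - 3 * θ i by linarith))
        rw [mul_zero] at h2
        refine h2.congr' ?_
        filter_upwards [eventually_gt_atTop 0] with u hu
        have e1 : u ^ (3 * θ i₀ - (d : ℝ)) = u ^ (3 * θ i - (d : ℝ)) * u ^ (3 * θ i₀ - 3 * θ i) := by
          rw [← Real.rpow_add hu]
          congr 1
          ring
        have h3 : u ^ (3 * θ i - (d : ℝ)) ≠ 0 := (Real.rpow_pos_of_pos hu _).ne'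
        have h4 : u ^ (3 * θ i₀ - 3 * θ i) ≠ 0 := (Real.rpow_pos_of_pos hu _).ne'
        rw [e1, Real.rpow_neg hu.le]
        field_simp
  have h2 := tendsto_finsetSum (univ : Finset (Fin m)) fun i _ => h1 i
  rw [sum_ite_eq' univ i₀, if_pos (mem_univ _)] at h2
  refine h2.congr fun u => ?_
  rw [sum_div]

end Pool.Agent.U828.CN
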