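import Pool.Agent.U828.CN.Fin
import Pool.Agent.U828.CN.Exp

/-!
Squarefree congruent numbers and real powers (helper828).
-/

set_option autoImplicit false

namespace Pool.Agent.U828.CN

open Finset Polynomial
open Pool.Agent.U552.CN (nn pt nn_real box box_mem)
open Pool.Agent.Helper602.MK (ee)
open Pool.Agent.H469R2.NK (e)

lemma e_ee (x : ℝ) : ee x = e x := by
  unfold ee e
  congr 1
  push_cast
  ring

/-- Modulo one the values `c i * n ^ θ i` lie between `a i` and `b i`. -/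
def PBox {m : ℕ} (c θ a b : Fin m → ℝ) (n : ℕ) : Prop :=
  ∀ i, ∃ k : ℤ, a i < c i * (n : ℝ) ^ θ i + k ∧ c i * (n : ℝ) ^ θ i + k < b i

theorem pbox_count {m : ℕ} (c θ : Fin m → ℝ) (hc : ∀ i, c i ≠ 0) (hθ : Function.Injective θ)
    (hθ1 : ∀ i, 1 / 3 < θ i) (hθ2 : ∀ i, ∀ k : ℕ, 3 * θ i ≠ k) (a b : Fin m → ℝ) (hab : ∀ i, a i < b i)
    (M n₀ : ℕ) (hM : 1 ≤ M) (hn : Squarefree n₀) :
    ∃ δ D X₀ : ℝ, 0 < δ ∧ ∀ X : ℝ, X₀ ≤ X → ∀ Q : ℕ → Prop,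
      (∀ u : ℕ, 1 ≤ u → Squarefree (nn M u) → nn M u ≡ n₀ [MOD 8 * M] → PBox c θ a b (nn M u) → Q (nn M u)) →
      δ * X ^ (1 / 6 : ℝ) ≤ (({n : ℕ | X ≤ n ∧ (n : ℝ) ≤ X + D * X ^ (5 / 6 : ℝ) ∧ Q n}.ncard : ℕ) : ℝ) := by
  obtain ⟨hO, hne⟩ := box a b hab
  have hMr : (1 : ℝ) ≤ M := by exact_mod_cast hM
  have hM4 : (1 : ℝ) ≤ (M : ℝ) ^ 4 := one_le_pow₀ hMr
  have hA : 1 < 16 * (M : ℝ) ^ 4 := by linarith
  obtain ⟨δ, D, X₀, hδ, h⟩ := main (fun i n => c i * (n : ℝ) ^ θ i) M n₀ hM hn (fun k hk W hW ε L₁ L₂ hε hL₁ hL₂ => by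
    have hb : (fun i => (k i : ℝ) * c i) ≠ 0 := by
      obtain ⟨i, hi⟩ := Function.ne_iff.1 hk
      refine Function.ne_iff.2 ⟨i, ?_⟩
      have : (k i : ℝ) ≠ 0 := by exact_mod_cast hi
      exact mul_ne_zero this (hc i)
    filter_upwards [expo (16 * (M : ℝ) ^ 4) hA θ (fun i => (k i : ℝ) * c i) hθ hθ1 hθ2 hb W hW ε L₁ L₂ hε hL₁ hL₂,
      Filter.eventually_ge_atTop 1] with U hU hU1 K hK1 hK2
    refine le_trans (le_of_eq ?_) (hU K hK1 hK2)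
    congr 1
    refine sum_congr rfl fun t _ => ?_
    rw [e_ee]
    congr 1
    refine sum_congr rfl fun i _ => ?_
    rw [nn_real hM (by omega : 1 ≤ U + W * t)]
    unfold FF
    push_cast
    ring) _ hO hne
  refine ⟨δ, D, X₀, hδ, fun X hX Q hQ => ?_⟩
  obtain ⟨A, hA, hA2⟩ := h X hX
  refine hA.trans ?_
  have hfin : {n : ℕ | X ≤ n ∧ (n : ℝ) ≤ X + D * X ^ (5 / 6 : ℝ) ∧ Q n}.Finite := by
    refine (Set.finite_Iic ⌊X + D * X ^ (5 / 6 : ℝ)⌋₊).subset ?_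
    intro n hn
    exact Nat.le_floor hn.2.1
  have hsub : (A : Set ℕ) ⊆ {n : ℕ | X ≤ n ∧ (n : ℝ) ≤ X + D * X ^ (5 / 6 : ℝ) ∧ Q n} := by
    intro n hn
    obtain ⟨h1, h2, h3, h4, ⟨u, hu, rfl⟩, h5⟩ := hA2 n hn
    exact ⟨h1, h2, hQ u hu h3 h4 fun i => box_mem h5 i⟩
  have := Set.ncard_le_ncard hsub hfin
  rw [Set.ncard_coe_finset] at this
  exact_mod_cast this

/-- floors in residue classes: `⌊n ^ θ⌋ ≡ r (mod q)` -/
lemma floor_mod {x : ℝ} {q : ℕ} (hq : 1 ≤ q) {r : ℤ} {k : ℤ} (h1 : (r : ℝ) / q < (q : ℝ)⁻¹ * x + k)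
    (h2 : (q : ℝ)⁻¹ * x + k < (r + 1) / q) : ⌊x⌋ ≡ r [ZMOD q] := by
  have hq0 : (0 : ℝ) < q := by exact_mod_cast hq
  rw [div_lt_iff₀ hq0] at h1
  rw [lt_div_iff₀ hq0] at h2
  have e1 : ((q : ℝ)⁻¹ * x + k) * q = x + k * q := by field_simp
  rw [e1] at h1 h2
  have h3 : ⌊x⌋ = r - k * q := by
    rw [Int.floor_eq_iff]
    push_cast
    constructor <;> linarith
  rw [h3]
  exact (Int.modEq_iff_dvd.2 ⟨k, by ring⟩)

end Pool.Agent.U828.CN
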